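import Mathlib

/-!
# Symmetric tensors with exactly one eigenvector

For every `n ≥ 1` and `d ≥ 2` there is a form of degree `d` in `n + 1` variables whose eigenscheme
is supported at exactly one point.
-/

set_option autoImplicit false

namespace Pool.Agent.Results.MP_3fe32a_ag.SinglePoint

open MvPolynomial

/-- `w` is an eigenvector of the form `f`: it is nonzero and the `2 × 2` minors of the matrix with
rows `w` and `∇ f (w)` vanish. The classes of these `w` are the closed points of the eigenscheme. -/
def IsEigenvector {n : ℕ} (f : MvPolynomial (Fin (n + 1)) ℂ) (w : Fin (n + 1) → ℂ) : Prop :=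
  w ≠ 0 ∧ ∀ i j, w i * eval w (pderiv j f) = w j * eval w (pderiv i f)

/-- the invariant of the inductive construction -/
structure Good (σ : Type) [Fintype σ] (d : ℕ) (f : MvPolynomial σ ℂ) (v : σ → ℂ) (k : σ) :
    Prop where
  hom : f.IsHomogeneous d
  vk : v k = 1
  only : ∀ (w : σ → ℂ) (l : ℂ), (∀ i, eval w (pderiv i f) = l * w i) → ∃ c : ℂ, w = c • v
  sing : ∀ (c : ℂ) (i : σ), eval (c • v) (pderiv i f) = 0
  inv : ∀ w : σ → ℂ, ∑ i, v i * eval w (pderiv i f) = 0

theorem good_one (d : ℕ) : Good (Fin 1) d 0 (fun _ => 1) 0 where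
  hom := isHomogeneous_zero _ _ _
  vk := rfl
  only := by
    intro w l _
    refine ⟨w 0, ?_⟩
    funext i
    rw [Subsingleton.elim i 0]
    simp
  sing := by simp
  inv := by simp

theorem I2 : Complex.I * Complex.I = -1 := Complex.I_mul_I

theorem good_two (d : ℕ) (hd : 2 ≤ d) :
    Good (Fin 2) d ((X 0 - C Complex.I * X 1) ^ d) ![1, -Complex.I] 0 := by
  have h0 : pderiv (0 : Fin 2) ((X 0 - C Complex.I * X 1 : MvPolynomial (Fin 2) ℂ) ^ d) =
      (d : MvPolynomial (Fin 2) ℂ) * (X 0 - C Complex.I * X 1) ^ (d - 1) := by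
    rw [pderiv_pow]
    simp [pderiv_X]
  have h1 : pderiv (1 : Fin 2) ((X 0 - C Complex.I * X 1 : MvPolynomial (Fin 2) ℂ) ^ d) =
      - ((d : MvPolynomial (Fin 2) ℂ) * (X 0 - C Complex.I * X 1) ^ (d - 1) * C Complex.I) := by
    rw [pderiv_pow]
    simp [pderiv_X]
  have hdd : (d : ℂ) ≠ 0 := by exact_mod_cast (by omega : d ≠ 0)
  refine ⟨?_, rfl, ?_, ?_, ?_⟩
  · have : (X 0 - C Complex.I * X 1 : MvPolynomial (Fin 2) ℂ).IsHomogeneous 1 := by
      refine (isHomogeneous_X _ _).sub ?_
      have := (isHomogeneous_C (Fin 2) Complex.I).mul (isHomogeneous_X ℂ (1 : Fin 2))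
      simpa using this
    simpa using this.pow d
  · intro w l h
    have e0 := h 0
    have e1 := h 1
    rw [h0] at e0
    rw [h1] at e1
    simp only [map_mul, map_pow, map_sub, map_natCast, eval_X, eval_C, map_neg] at e0 e1
    set u := w 0 - Complex.I * w 1 with hu
    have h2 : l * u = 0 := by
      linear_combination (-1) * e0 + Complex.I * e1 + ((d : ℂ) * u ^ (d - 1)) * I2 + l * hu
    have h3 : u = 0 := by
      rcases mul_eq_zero.1 h2 with h4 | h4
      · rw [h4, zero_mul] at e0
        rcases mul_eq_zero.1 e0 with h5 | h5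
        · exact absurd h5 hdd
        · exact pow_eq_zero_iff (by omega) |>.1 h5
      · exact h4
    refine ⟨w 0, ?_⟩
    funext i
    fin_cases i
    · simp
    · have : w 0 = Complex.I * w 1 := by linear_combination h3
      simp only [Fin.mk_one, Pi.smul_apply, Matrix.cons_val_one, Matrix.cons_val_fin_one, smul_eq_mul]
      rw [this]
      linear_combination (w 1) * I2
  · intro c i
    have hz : eval (c • ![1, -Complex.I]) (X 0 - C Complex.I * X 1 : MvPolynomial (Fin 2) ℂ) = 0 := by
      simp
      linear_combination c * I2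
    have hz' : eval (c • ![1, -Complex.I])
        ((X 0 - C Complex.I * X 1 : MvPolynomial (Fin 2) ℂ) ^ (d - 1)) = 0 := by
      rw [map_pow, hz, zero_pow (by omega)]
    fin_cases i
    · change eval (c • ![1, -Complex.I]) (pderiv 0 _) = 0
      rw [h0, map_mul, hz', mul_zero]
    · change eval (c • ![1, -Complex.I]) (pderiv 1 _) = 0
      rw [h1, map_neg, map_mul, map_mul, hz', mul_zero, zero_mul, neg_zero]
  · intro w
    rw [Fin.sum_univ_two, h0, h1]
    simp
    linear_combination ((d : ℂ) * (w 0 - Complex.I * w 1) ^ (d - 1)) * I2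


/-- the polynomial of the inductive step -/
noncomputable def stepPoly {σ : Type} (d : ℕ) (f : MvPolynomial σ ℂ) (k : σ) :
    MvPolynomial (σ ⊕ Fin 2) ℂ :=
  rename Sum.inl f +
    X (Sum.inl k) ^ (d - 1) * (X (Sum.inr 0) - C Complex.I * X (Sum.inr 1)) +
    (X (Sum.inr 0) - C Complex.I * X (Sum.inr 1)) ^ d

theorem step_inl {σ : Type} [DecidableEq σ] (d : ℕ) (f : MvPolynomial σ ℂ) (k i : σ) :
    pderiv (Sum.inl i) (stepPoly d f k) = rename Sum.inl (pderiv i f) +
      (if i = k then ((d - 1 : ℕ) : MvPolynomial (σ ⊕ Fin 2) ℂ) * X (Sum.inl k) ^ (d - 1 - 1) *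
        (X (Sum.inr 0) - C Complex.I * X (Sum.inr 1)) else 0) := by
  rw [stepPoly, map_add, map_add, pderiv_rename Sum.inl_injective, pderiv_mul, pderiv_pow,
    pderiv_pow]
  by_cases h : i = k
  · subst h
    simp [pderiv_X]
  · have h' : k ≠ i := fun e => h e.symm
    simp [pderiv_X, h, h']

theorem step_inr {σ : Type} [DecidableEq σ] (d : ℕ) (f : MvPolynomial σ ℂ) (k : σ) (j : Fin 2) :
    pderiv (Sum.inr j) (stepPoly d f k) =
      C (![1, -Complex.I] j) * (X (Sum.inl k) ^ (d - 1) +
        (d : MvPolynomial (σ ⊕ Fin 2) ℂ) *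
          (X (Sum.inr 0) - C Complex.I * X (Sum.inr 1)) ^ (d - 1)) := by
  have hz : pderiv (Sum.inr j) (rename (Sum.inl : σ → σ ⊕ Fin 2) f) = 0 := by
    apply pderiv_eq_zero_of_notMem_vars
    intro hmem
    have := vars_rename (Sum.inl : σ → σ ⊕ Fin 2) f hmem
    simp at this
  rw [stepPoly, map_add, map_add, hz, pderiv_mul, pderiv_pow, pderiv_pow]
  fin_cases j
  · simp [pderiv_X]
  · simp [pderiv_X]
    ring

theorem eval_rename_inl {σ : Type} (w : σ ⊕ Fin 2 → ℂ) (p : MvPolynomial σ ℂ) :
    eval w (rename Sum.inl p) = eval (fun i => w (Sum.inl i)) p := by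
  rw [eval_rename]
  rfl

theorem good_step {σ : Type} [Fintype σ] [DecidableEq σ] {d : ℕ} (hd : 2 ≤ d)
    {f : MvPolynomial σ ℂ} {v : σ → ℂ} {k : σ} (h : Good σ d f v k) :
    Good (σ ⊕ Fin 2) d (stepPoly d f k) (Sum.elim 0 ![1, -Complex.I]) (Sum.inr 0) := by
  have hdd : (d : ℂ) ≠ 0 := by exact_mod_cast (by omega : d ≠ 0)
  have hdd1 : ((d - 1 : ℕ) : ℂ) ≠ 0 := by exact_mod_cast (by omega : d - 1 ≠ 0)
  refine ⟨?_, rfl, ?_, ?_, ?_⟩
  · have hU : (X (Sum.inr 0) - C Complex.I * X (Sum.inr 1) :
        MvPolynomial (σ ⊕ Fin 2) ℂ).IsHomogeneous 1 := by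
      refine (isHomogeneous_X _ _).sub ?_
      have := (isHomogeneous_C (σ ⊕ Fin 2) Complex.I).mul
        (isHomogeneous_X ℂ (Sum.inr 1 : σ ⊕ Fin 2))
      simpa using this
    have h1 : (rename (Sum.inl : σ → σ ⊕ Fin 2) f).IsHomogeneous d := h.hom.rename_isHomogeneous
    have h2 : (X (Sum.inl k) ^ (d - 1) * (X (Sum.inr 0) - C Complex.I * X (Sum.inr 1)) :
        MvPolynomial (σ ⊕ Fin 2) ℂ).IsHomogeneous d := by
      have := ((isHomogeneous_X ℂ (Sum.inl k : σ ⊕ Fin 2)).pow (d - 1)).mul hU
      have e : 1 * (d - 1) + 1 = d := by omega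
      rwa [e] at this
    have h3 := hU.pow d
    rw [one_mul] at h3
    exact (h1.add h2).add h3
  · intro w l hw
    set w' : σ → ℂ := fun i => w (Sum.inl i) with hw'
    set u : ℂ := w (Sum.inr 0) - Complex.I * w (Sum.inr 1) with hu
    have e0 : w' k ^ (d - 1) + d * u ^ (d - 1) = l * w (Sum.inr 0) := by
      have := hw (Sum.inr 0)
      rw [step_inr] at this
      simpa [hu, hw'] using this
    have e1 : - Complex.I * (w' k ^ (d - 1) + d * u ^ (d - 1)) = l * w (Sum.inr 1) := by
      have := hw (Sum.inr 1)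
      rw [step_inr] at this
      simpa [hu, hw'] using this
    have ei : ∀ i, eval w' (pderiv i f) +
        (if i = k then ((d - 1 : ℕ) : ℂ) * w' k ^ (d - 1 - 1) * u else 0) = l * w' i := by
      intro i
      have := hw (Sum.inl i)
      rw [step_inl, map_add, eval_rename_inl] at this
      rw [← hw'] at this
      by_cases hik : i = k
      · simp only [hik, if_true, map_mul, map_pow, map_sub, eval_X, eval_C, map_natCast] at this
        simp only [hik, if_true]
        exact this
      · simpa [hik] using this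
    have h2 : l * u = 0 := by
      linear_combination (-1) * e0 + Complex.I * e1 +
        (w' k ^ (d - 1) + d * u ^ (d - 1)) * I2 + l * hu
    -- it suffices to show that `w' = 0` and `u = 0`
    suffices hmain : w' = 0 ∧ u = 0 by
      refine ⟨w (Sum.inr 0), ?_⟩
      funext x
      rcases x with i | j
      · have := congrFun hmain.1 i
        simpa [hw'] using this
      · have h3 : w (Sum.inr 0) = Complex.I * w (Sum.inr 1) := by
          linear_combination hmain.2 - hu
        fin_cases j
        · simp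
        · simp only [Fin.mk_one, Pi.smul_apply, Sum.elim_inr, Matrix.cons_val_one,
            Matrix.cons_val_fin_one, smul_eq_mul]
          rw [h3]
          linear_combination (w (Sum.inr 1)) * I2
    rcases mul_eq_zero.1 h2 with hl | hu0
    · -- the case `l = 0`
      rw [hl, zero_mul] at e0
      have h4 : ((d - 1 : ℕ) : ℂ) * w' k ^ (d - 1 - 1) * u = 0 := by
        have h5 := h.inv w'
        have h6 : ∑ i, v i * (eval w' (pderiv i f) +
            (if i = k then ((d - 1 : ℕ) : ℂ) * w' k ^ (d - 1 - 1) * u else 0)) = 0 := by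
          refine Finset.sum_eq_zero fun i _ => ?_
          rw [ei i, hl]
          ring
        simp only [mul_add, Finset.sum_add_distrib, h5, zero_add, mul_ite, mul_zero] at h6
        rw [Finset.sum_ite_eq' Finset.univ k] at h6
        simpa [h.vk] using h6
      have h7 : w' k = 0 ∧ u = 0 := by
        by_cases hu0 : u = 0
        · rw [hu0, zero_pow (by omega : d - 1 ≠ 0), mul_zero, add_zero] at e0
          exact ⟨(pow_eq_zero_iff (by omega)).1 e0, hu0⟩
        · have h8 : w' k ^ (d - 1 - 1) = 0 := by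
            rcases mul_eq_zero.1 h4 with h9 | h9
            · rcases mul_eq_zero.1 h9 with h10 | h10
              · exact absurd h10 hdd1
              · exact h10
            · exact absurd h9 hu0
          have h9 : w' k = 0 := by
            by_contra hne
            exact pow_ne_zero _ hne h8
          rw [h9, zero_pow (by omega : d - 1 ≠ 0), zero_add] at e0
          rcases mul_eq_zero.1 e0 with h10 | h10
          · exact absurd h10 hdd
          · exact absurd ((pow_eq_zero_iff (by omega)).1 h10) hu0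
      refine ⟨?_, h7.2⟩
      obtain ⟨c, hc⟩ := h.only w' 0 (by
        intro i
        have := ei i
        rw [h7.2, hl] at this
        simpa using this)
      have hck : c = 0 := by
        have := congrFun hc k
        rw [h7.1, Pi.smul_apply, h.vk, smul_eq_mul, mul_one] at this
        exact this.symm
      rw [hc, hck, zero_smul]
    · -- the case `u = 0`
      by_cases hl : l = 0
      · have h4 : w' k = 0 := by
          rw [hl, zero_mul, hu0, zero_pow (by omega : d - 1 ≠ 0), mul_zero, add_zero] at e0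
          exact (pow_eq_zero_iff (by omega)).1 e0
        refine ⟨?_, hu0⟩
        obtain ⟨c, hc⟩ := h.only w' 0 (by
          intro i
          have := ei i
          rw [hu0, hl] at this
          simpa using this)
        have hck : c = 0 := by
          have := congrFun hc k
          rw [h4, Pi.smul_apply, h.vk, smul_eq_mul, mul_one] at this
          exact this.symm
        rw [hc, hck, zero_smul]
      · refine ⟨?_, hu0⟩
        have h5 : ∀ i, eval w' (pderiv i f) = l * w' i := by
          intro i
          have := ei i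
          rw [hu0] at this
          simpa using this
        obtain ⟨c, hc⟩ := h.only w' l h5
        funext i
        have h6 := h.sing c i
        rw [← hc, h5 i] at h6
        rcases mul_eq_zero.1 h6 with h7 | h7
        · exact absurd h7 hl
        · simpa using h7
  · intro c x
    have hu : eval (c • (Sum.elim 0 ![1, -Complex.I] : σ ⊕ Fin 2 → ℂ))
        (X (Sum.inr 0) - C Complex.I * X (Sum.inr 1)) = 0 := by
      simp
      linear_combination c * I2
    have hk : eval (c • (Sum.elim 0 ![1, -Complex.I] : σ ⊕ Fin 2 → ℂ)) (X (Sum.inl k)) = 0 := by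
      simp
    rcases x with i | j
    · rw [step_inl, map_add, eval_rename_inl]
      have h0 := h.sing 0 i
      rw [zero_smul] at h0
      have h1 : (fun i => (c • (Sum.elim 0 ![1, -Complex.I] : σ ⊕ Fin 2 → ℂ)) (Sum.inl i)) =
          (0 : σ → ℂ) := by
        funext i
        simp
      rw [h1, h0, zero_add]
      by_cases hik : i = k
      · rw [if_pos hik, map_mul, hu, mul_zero]
      · rw [if_neg hik, map_zero]
    · rw [step_inr, map_mul, map_add, map_pow, map_mul, map_pow, hu, hk,
        zero_pow (by omega : d - 1 ≠ 0)]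
      ring
  · intro w
    rw [Fintype.sum_sum_type]
    simp only [Sum.elim_inl, Sum.elim_inr, Pi.zero_apply, zero_mul, Finset.sum_const_zero,
      zero_add, Fin.sum_univ_two]
    rw [step_inr, step_inr, map_mul, map_mul, eval_C, eval_C]
    simp only [Matrix.cons_val_zero, Matrix.cons_val_one, Matrix.cons_val_fin_one]
    ring_nf
    rw [Complex.I_sq]
    ring


theorem good_equiv {σ τ : Type} [Fintype σ] [Fintype τ] (e : σ ≃ τ) {d : ℕ}
    {f : MvPolynomial σ ℂ} {v : σ → ℂ} {k : σ} (h : Good σ d f v k) :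
    Good τ d (rename e f) (fun j => v (e.symm j)) (e k) := by
  have key : ∀ (w : τ → ℂ) (i : σ), eval w (pderiv (e i) (rename e f)) =
      eval (fun i => w (e i)) (pderiv i f) := by
    intro w i
    rw [pderiv_rename e.injective, eval_rename]
    rfl
  refine ⟨h.hom.rename_isHomogeneous, by simp [h.vk], ?_, ?_, ?_⟩
  · intro w l hw
    obtain ⟨c, hc⟩ := h.only (fun i => w (e i)) l (by
      intro i
      rw [← key, hw (e i)])
    refine ⟨c, ?_⟩
    funext j
    have := congrFun hc (e.symm j)
    simpa using this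
  · intro c j
    obtain ⟨i, rfl⟩ := e.surjective j
    rw [key]
    have h1 : (fun i => (c • fun j => v (e.symm j)) (e i)) = c • v := by
      funext i
      simp
    rw [h1]
    exact h.sing c i
  · intro w
    rw [← Equiv.sum_comp e]
    simp only [Equiv.symm_apply_apply, key]
    exact h.inv _

theorem good_all (d : ℕ) (hd : 2 ≤ d) (m : ℕ) :
    (∃ (f : MvPolynomial (Fin (m + 1)) ℂ) (v : Fin (m + 1) → ℂ) (k : Fin (m + 1)),
      Good (Fin (m + 1)) d f v k) ∧
    (∃ (f : MvPolynomial (Fin (m + 2)) ℂ) (v : Fin (m + 2) → ℂ) (k : Fin (m + 2)),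
      Good (Fin (m + 2)) d f v k) := by
  induction m with
  | zero => exact ⟨⟨_, _, _, good_one d⟩, ⟨_, _, _, good_two d hd⟩⟩
  | succ m ih =>
    obtain ⟨⟨f, v, k, h⟩, h2⟩ := ih
    exact ⟨h2, ⟨_, _, _, good_equiv finSumFinEquiv (good_step hd h)⟩⟩

/-- **Theorem.** For all `n ≥ 1` and `d ≥ 2` there is a form `f` of degree `d` in `n + 1` variables
over the complex numbers which has exactly one eigenvector up to scaling: its eigenscheme is
supported at exactly one point of `ℙⁿ`. -/
theorem result (n d : ℕ) (hn : 1 ≤ n) (hd : 2 ≤ d) :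
    ∃ f : MvPolynomial (Fin (n + 1)) ℂ, f.IsHomogeneous d ∧
      ∃ v : Fin (n + 1) → ℂ, v ≠ 0 ∧
        ∀ w : Fin (n + 1) → ℂ, IsEigenvector f w ↔ ∃ c : ℂ, c ≠ 0 ∧ w = c • v := by
  obtain ⟨m, rfl⟩ : ∃ m, n = m + 1 := ⟨n - 1, by omega⟩
  obtain ⟨f, v, k, h⟩ := (good_all d hd m).2
  have hv : v ≠ 0 := by
    intro hv
    have := h.vk
    rw [hv] at this
    simp at this
  refine ⟨f, h.hom, v, hv, fun w => ⟨?_, ?_⟩⟩
  · rintro ⟨hw, hm⟩
    obtain ⟨i, hi⟩ : ∃ i, w i ≠ 0 := by
      by_contra hno
      push Not at hno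
      exact hw (funext hno)
    obtain ⟨c, hc⟩ := h.only w (eval w (pderiv i f) / w i) (by
      intro j
      have := hm i j
      field_simp
      linear_combination this)
    refine ⟨c, ?_, hc⟩
    rintro rfl
    rw [zero_smul] at hc
    exact hw hc
  · rintro ⟨c, hc, rfl⟩
    refine ⟨smul_ne_zero hc hv, fun i j => ?_⟩
    rw [h.sing c i, h.sing c j, mul_zero, mul_zero]

end Pool.Agent.Results.MP_3fe32a_ag.SinglePoint
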